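import Mathlib

/-!
# A conditionally flat localization functor on groups which is not an epireflection

The rational abelianization `G ↦ G_ab ⊗ ℚ` is a localization functor on the category of groups; it is
right exact, hence conditionally flat, and it is not an epireflection.
-/

set_option autoImplicit false

universe u

open CategoryTheory TensorProduct

namespace Pool.Agent.Results.MP_52d248_al.RationalAbelianization

/-- A localization functor on the category of groups: an endofunctor `L` with a natural
transformation `η : Id ⟶ L` such that, for every group `G`, the homomorphisms `L (η_G)` and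
`η_(L G)` from `L G` to `L (L G)` are equal and are isomorphisms. -/
def IsLocalizationFunctor (L : GrpCat.{u} ⥤ GrpCat.{u}) (η : 𝟭 GrpCat.{u} ⟶ L) : Prop :=
  ∀ G : GrpCat.{u}, L.map (η.app G) = η.app (L.obj G) ∧ IsIso (η.app (L.obj G))

/-- `L` is an epireflection: `η_G` is surjective for every group `G`. -/
def IsEpireflection (L : GrpCat.{u} ⥤ GrpCat.{u}) (η : 𝟭 GrpCat.{u} ⟶ L) : Prop :=
  ∀ G : GrpCat.{u}, Function.Surjective (η.app G).hom

/-- `1 → N → E → G → 1` is a short exact sequence of groups. -/
def ShortExact {N E G : GrpCat.{u}} (i : N ⟶ E) (p : E ⟶ G) : Prop :=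
  Function.Injective i.hom ∧ i.hom.range = p.hom.ker ∧ Function.Surjective p.hom

/-- The extension `1 → N → E → G → 1` is `L`-flat: it and `1 → L N → L E → L G → 1` are short exact
sequences. -/
def IsFlat (L : GrpCat.{u} ⥤ GrpCat.{u}) {N E G : GrpCat.{u}} (i : N ⟶ E) (p : E ⟶ G) : Prop :=
  ShortExact i p ∧ ShortExact (L.map i) (L.map p)

/-- The pullback `E ×_G H` of `p : E ⟶ G` and `f : H ⟶ G`. -/
def Pullback {E G H : GrpCat.{u}} (p : E ⟶ G) (f : H ⟶ G) : Subgroup (E × H) where
  carrier := {x | p.hom x.1 = f.hom x.2}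
  mul_mem' := by
    intro a b ha hb
    change p.hom (a * b).1 = f.hom (a * b).2
    change p.hom a.1 = f.hom a.2 at ha
    change p.hom b.1 = f.hom b.2 at hb
    rw [Prod.fst_mul, Prod.snd_mul, map_mul, map_mul, ha, hb]
  one_mem' := by simp
  inv_mem' := by
    intro a ha
    change p.hom (a⁻¹).1 = f.hom (a⁻¹).2
    change p.hom a.1 = f.hom a.2 at ha
    rw [Prod.fst_inv, Prod.snd_inv, map_inv, map_inv, ha]

/-- The homomorphism `N → E ×_G H`, `n ↦ (i n, 1)`, where `p (i n) = 1` for all `n`. -/
def pullbackKernel {N E G H : GrpCat.{u}} (i : N ⟶ E) (p : E ⟶ G) (f : H ⟶ G)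
    (hi : ∀ n : N, p.hom (i.hom n) = 1) : N ⟶ GrpCat.of (Pullback p f) :=
  GrpCat.ofHom
    { toFun := fun n => ⟨(i.hom n, 1), by
        change p.hom (i.hom n) = f.hom 1
        rw [hi n, map_one]⟩
      map_one' := by
        apply Subtype.ext
        change (i.hom 1, (1 : H)) = 1
        rw [map_one]; rfl
      map_mul' := by
        intro a b
        apply Subtype.ext
        change (i.hom (a * b), (1 : H)) = (i.hom a, 1) * (i.hom b, 1)
        rw [map_mul, Prod.mk_mul_mk, mul_one] }

/-- The homomorphism `E ×_G H → H`, `(e, h) ↦ h`. -/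
def pullbackProj {E G H : GrpCat.{u}} (p : E ⟶ G) (f : H ⟶ G) :
    GrpCat.of (Pullback p f) ⟶ H :=
  GrpCat.ofHom ((MonoidHom.snd E H).comp (Pullback p f).subtype)

/-- `L` is conditionally flat: for every `L`-flat extension `1 → N → E → G → 1` and every
homomorphism `H → G` the pulled-back extension `1 → N → E ×_G H → H → 1` is `L`-flat. -/
def ConditionallyFlat (L : GrpCat.{u} ⥤ GrpCat.{u}) : Prop :=
  ∀ (N E G H : GrpCat.{u}) (i : N ⟶ E) (p : E ⟶ G) (f : H ⟶ G)
    (hi : ∀ n : N, p.hom (i.hom n) = 1),
    IsFlat L i p → IsFlat L (pullbackKernel i p f hi) (pullbackProj p f)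

/-- `L` is right exact: it maps exact sequences `N → E → G → 1` to exact sequences
`L N → L E → L G → 1`. -/
def RightExact (L : GrpCat.{u} ⥤ GrpCat.{u}) : Prop :=
  ∀ (N E G : GrpCat.{u}) (i : N ⟶ E) (p : E ⟶ G), i.hom.range = p.hom.ker →
    Function.Surjective p.hom →
      (L.map i).hom.range = (L.map p).hom.ker ∧ Function.Surjective (L.map p).hom

/-! ### Rational abelianization -/

/-- `G_ab ⊗ ℚ`, written additively. -/
abbrev RA (G : Type u) [Group G] : Type u := ℚ ⊗[ℤ] Additive (Abelianization G)

/-- The map `G_ab ⊗ ℚ → H_ab ⊗ ℚ` induced by a homomorphism `G → H`. -/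
noncomputable def raMap {G H : Type u} [Group G] [Group H] (f : G →* H) : RA G →ₗ[ℤ] RA H :=
  LinearMap.lTensor ℚ (Abelianization.map f).toAdditive.toIntLinearMap

theorem raMap_tmul {G H : Type u} [Group G] [Group H] (f : G →* H) (q : ℚ) (g : G) :
    raMap f (q ⊗ₜ Additive.ofMul (Abelianization.of g)) =
      q ⊗ₜ Additive.ofMul (Abelianization.of (f g)) := rfl

theorem ra_ext {G : Type u} [Group G] {M : Type*} [AddCommGroup M] {a b : RA G →ₗ[ℤ] M}
    (h : ∀ (q : ℚ) (g : G), a (q ⊗ₜ Additive.ofMul (Abelianization.of g)) =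
      b (q ⊗ₜ Additive.ofMul (Abelianization.of g))) : a = b := by
  apply TensorProduct.ext'
  intro q y
  obtain ⟨x, rfl⟩ := Additive.ofMul.surjective y
  obtain ⟨g, rfl⟩ := QuotientGroup.mk_surjective x
  exact h q g

/-- The rational abelianization functor. -/
noncomputable def L : GrpCat.{u} ⥤ GrpCat.{u} where
  obj G := GrpCat.of (Multiplicative (RA G))
  map f := GrpCat.ofHom (AddMonoidHom.toMultiplicative (raMap f.hom).toAddMonoidHom)
  map_id G := by
    apply GrpCat.hom_ext
    apply MonoidHom.ext
    intro x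
    have h : raMap (𝟙 G : G ⟶ G).hom = LinearMap.id := ra_ext fun q g => rfl
    change Multiplicative.ofAdd (raMap (𝟙 G : G ⟶ G).hom x.toAdd) = x
    rw [h]
    rfl
  map_comp f g := by
    apply GrpCat.hom_ext
    apply MonoidHom.ext
    intro x
    have h : raMap (f ≫ g).hom = (raMap g.hom) ∘ₗ (raMap f.hom) := ra_ext fun q g => rfl
    change Multiplicative.ofAdd (raMap (f ≫ g).hom x.toAdd) = _
    rw [h]
    rfl

/-- The map `G → G_ab ⊗ ℚ`, `g ↦ [g] ⊗ 1`. -/
noncomputable def raUnit (G : Type u) [Group G] : G →* Multiplicative (RA G) :=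
  (AddMonoidHom.toMultiplicative
    ((TensorProduct.mk ℤ ℚ (Additive (Abelianization G)) 1).toAddMonoidHom)).comp
    (Abelianization.of)

theorem raUnit_apply {G : Type u} [Group G] (g : G) :
    raUnit G g = Multiplicative.ofAdd ((1 : ℚ) ⊗ₜ Additive.ofMul (Abelianization.of g)) := rfl

/-- The unit of the rational abelianization. -/
noncomputable def η : 𝟭 GrpCat.{u} ⟶ L.{u} where
  app G := GrpCat.ofHom (raUnit G)
  naturality G H f := by
    apply GrpCat.hom_ext
    apply MonoidHom.ext
    intro x
    rfl

theorem L_map_hom {G H : GrpCat.{u}} (f : G ⟶ H) (x : RA G) :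
    (L.map f).hom (Multiplicative.ofAdd x) = Multiplicative.ofAdd (raMap f.hom x) := rfl

section exact

variable {N E G : Type u} [Group N] [Group E] [Group G]

theorem ab_surj {p : E →* G} (hp : Function.Surjective p) :
    Function.Surjective (Abelianization.map p) := by
  intro y
  obtain ⟨g, rfl⟩ := QuotientGroup.mk_surjective y
  obtain ⟨e, rfl⟩ := hp g
  exact ⟨Abelianization.of e, rfl⟩

theorem ab_exact {i : N →* E} {p : E →* G} (hp : Function.Surjective p) (h : i.range = p.ker) :
    Function.Exact (Abelianization.map i).toAdditive.toIntLinearMap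
      (Abelianization.map p).toAdditive.toIntLinearMap := by
  intro y
  obtain ⟨x, rfl⟩ := Additive.ofMul.surjective y
  obtain ⟨e, rfl⟩ := QuotientGroup.mk_surjective x
  constructor
  · intro hy
    have h1 : Abelianization.of (p e) = 1 := hy
    have h2 : p e ∈ commutator G := by
      rw [← Abelianization.ker_of G]
      exact h1
    have h3 : (commutator E).map p = commutator G := by
      rw [commutator_def, commutator_def, Subgroup.map_commutator, ← MonoidHom.range_eq_map,
        MonoidHom.range_eq_top.2 hp]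
    rw [← h3] at h2
    obtain ⟨c, hc, hce⟩ := h2
    have h4 : e * c⁻¹ ∈ p.ker := by
      rw [MonoidHom.mem_ker, map_mul, map_inv, hce, mul_inv_cancel]
    rw [← h] at h4
    obtain ⟨n, hn⟩ := h4
    refine ⟨Additive.ofMul (Abelianization.of n), ?_⟩
    change Additive.ofMul (Abelianization.of (i n)) = Additive.ofMul (Abelianization.of e)
    have h5 : Abelianization.of c = 1 := by
      have : c ∈ (Abelianization.of : E →* Abelianization E).ker := by
        rw [Abelianization.ker_of]
        exact hc
      exact this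
    rw [hn, map_mul, map_inv, h5, inv_one, mul_one]
  · rintro ⟨z, hz⟩
    obtain ⟨w, rfl⟩ := Additive.ofMul.surjective z
    obtain ⟨n, rfl⟩ := QuotientGroup.mk_surjective w
    have h1 : Abelianization.of (i n) = Abelianization.of e := hz
    change Abelianization.map p (Abelianization.of e) = 1
    rw [← h1]
    change Abelianization.of (p (i n)) = 1
    have h2 : i n ∈ p.ker := by
      rw [← h]
      exact ⟨n, rfl⟩
    rw [MonoidHom.mem_ker.1 h2, map_one]

theorem raMap_surj {p : E →* G} (hp : Function.Surjective p) : Function.Surjective (raMap p) :=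
  LinearMap.lTensor_surjective _ (ab_surj hp)

theorem raMap_exact {i : N →* E} {p : E →* G} (hp : Function.Surjective p)
    (h : i.range = p.ker) : Function.Exact (raMap i) (raMap p) :=
  lTensor_exact ℚ (ab_exact hp h) (ab_surj hp)

end exact

theorem rightExact : RightExact L.{u} := by
  intro N E G i p h hp
  have hex := raMap_exact hp h
  constructor
  · ext x
    constructor
    · rintro ⟨y, rfl⟩
      rw [MonoidHom.mem_ker]
      have := (hex (raMap i.hom y.toAdd)).2 ⟨_, rfl⟩
      exact congrArg Multiplicative.ofAdd this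
    · intro hx
      rw [MonoidHom.mem_ker] at hx
      have h1 : raMap p.hom x.toAdd = 0 := congrArg Multiplicative.toAdd hx
      obtain ⟨y, hy⟩ := (hex x.toAdd).1 h1
      exact ⟨Multiplicative.ofAdd y, congrArg Multiplicative.ofAdd hy⟩
  · intro y
    obtain ⟨x, hx⟩ := raMap_surj hp y.toAdd
    exact ⟨Multiplicative.ofAdd x, congrArg Multiplicative.ofAdd hx⟩

/-- A right exact functor on groups is conditionally flat. -/
theorem conditionallyFlat_of_rightExact {L : GrpCat.{u} ⥤ GrpCat.{u}} (hL : RightExact L) :
    ConditionallyFlat L := by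
  rintro N E G H i p f hi ⟨⟨hi1, hi2, hi3⟩, hL1, -, -⟩
  have hsurj : Function.Surjective (pullbackProj p f).hom := by
    intro y
    obtain ⟨e, he⟩ := hi3 (f.hom y)
    exact ⟨⟨(e, y), he⟩, rfl⟩
  have hex : (pullbackKernel i p f hi).hom.range = (pullbackProj p f).hom.ker := by
    ext ⟨⟨e, y⟩, hx⟩
    constructor
    · rintro ⟨n, hn⟩
      rw [MonoidHom.mem_ker]
      have h1 := congrArg (fun z : Pullback p f => z.1.2) hn
      exact h1.symm
    · intro hy
      have hy1 : y = 1 := hy
      subst hy1
      have h2 : e ∈ p.hom.ker := by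
        rw [MonoidHom.mem_ker]
        have h3 : p.hom e = f.hom 1 := hx
        rw [h3, map_one]
      rw [← hi2] at h2
      obtain ⟨n, rfl⟩ := h2
      exact ⟨n, rfl⟩
  obtain ⟨h4, h5⟩ := hL _ _ _ _ _ hex hsurj
  refine ⟨⟨?_, hex, hsurj⟩, ?_, h4, h5⟩
  · intro a b hab
    apply hi1
    exact congrArg (fun z : Pullback p f => z.1.1) hab
  · let k : GrpCat.of (Pullback p f) ⟶ E :=
      GrpCat.ofHom ((MonoidHom.fst E H).comp (Pullback p f).subtype)
    have hk : i = pullbackKernel i p f hi ≫ k := by
      apply GrpCat.hom_ext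
      apply MonoidHom.ext
      intro x
      rfl
    have h6 : (L.map i).hom = (L.map k).hom.comp (L.map (pullbackKernel i p f hi)).hom := by
      conv_lhs => rw [hk, L.map_comp]
      rfl
    rw [h6] at hL1
    exact Function.Injective.of_comp hL1

/-! ### It is a localization functor -/

theorem unit_bij (G : GrpCat.{u}) : Function.Bijective (η.app (L.obj G)).hom := by
  -- the inverse
  let V := RA G
  let e : Additive (Abelianization (Multiplicative V)) →+ V :=
    (Abelianization.lift (MonoidHom.id (Multiplicative V))).toAdditive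
  let r : ℚ →ₗ[ℤ] V →ₗ[ℤ] V := (LinearMap.lsmul ℚ V).restrictScalars₁₂ ℤ ℤ
  let s : RA (Multiplicative V) →ₗ[ℤ] V := TensorProduct.lift (r.compl₂ e.toIntLinearMap)
  have hs : ∀ (q : ℚ) (x : V),
      s (q ⊗ₜ Additive.ofMul (Abelianization.of (Multiplicative.ofAdd x))) = q • x := by
    intro q x
    rfl
  constructor
  · intro a b hab
    have h1 : ((1 : ℚ) ⊗ₜ Additive.ofMul (Abelianization.of a) : RA (Multiplicative V)) =
      (1 : ℚ) ⊗ₜ Additive.ofMul (Abelianization.of b) := hab
    have h2 := congrArg s h1
    have h3 := (hs 1 (Multiplicative.toAdd a : V)).trans (one_smul ℚ (Multiplicative.toAdd a : V))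
    have h4 := (hs 1 (Multiplicative.toAdd b : V)).trans (one_smul ℚ (Multiplicative.toAdd b : V))
    exact h3.symm.trans (h2.trans h4)
  · let t : V →+ RA (Multiplicative V) := 
      { toFun := fun x => (1 : ℚ) ⊗ₜ Additive.ofMul (Abelianization.of (Multiplicative.ofAdd x))
        map_zero' := by
          change (raUnit (Multiplicative V) 1) = 1
          rw [map_one]
        map_add' := by
          intro a b
          change (raUnit (Multiplicative V) (Multiplicative.ofAdd a * Multiplicative.ofAdd b)) = _
          rw [map_mul]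
          rfl }
    have ht : ∀ y, t (s y) = y := by
      intro y
      have : t.toIntLinearMap ∘ₗ s = LinearMap.id := by
        apply ra_ext
        intro q x
        change t (s (q ⊗ₜ Additive.ofMul (Abelianization.of x))) = _
        rw [show s (q ⊗ₜ Additive.ofMul (Abelianization.of x)) = q • (x.toAdd : V) from hs q x.toAdd,
          map_rat_smul t q]
        change q • ((1 : ℚ) ⊗ₜ Additive.ofMul (Abelianization.of x)) = _
        rw [TensorProduct.smul_tmul', smul_eq_mul, mul_one]
        rfl
      exact congrArg (fun g => g y) this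
    intro y
    exact ⟨Multiplicative.ofAdd (s y.toAdd), congrArg Multiplicative.ofAdd (ht y.toAdd)⟩

theorem map_unit (G : GrpCat.{u}) : L.map (η.app G) = η.app (L.obj G) := by
  apply GrpCat.hom_ext
  apply MonoidHom.ext
  intro x
  let t : RA G →+ RA (Multiplicative (RA G)) := 
      { toFun := fun x => (1 : ℚ) ⊗ₜ Additive.ofMul (Abelianization.of (Multiplicative.ofAdd x))
        map_zero' := by
          change (raUnit (Multiplicative (RA G)) 1) = 1
          rw [map_one]
        map_add' := by
          intro a b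
          change (raUnit (Multiplicative (RA G))
            (Multiplicative.ofAdd a * Multiplicative.ofAdd b)) = _
          rw [map_mul]
          rfl }
  have h : raMap (raUnit G) = t.toIntLinearMap := by
    apply ra_ext
    intro q g
    change q ⊗ₜ Additive.ofMul (Abelianization.of (raUnit G g)) =
      t (q ⊗ₜ Additive.ofMul (Abelianization.of g))
    have h1 : (q ⊗ₜ Additive.ofMul (Abelianization.of g) : RA G) =
        q • ((1 : ℚ) ⊗ₜ Additive.ofMul (Abelianization.of g)) := by
      rw [TensorProduct.smul_tmul', smul_eq_mul, mul_one]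
    rw [h1, map_rat_smul t q]
    change _ = q • ((1 : ℚ) ⊗ₜ Additive.ofMul (Abelianization.of (raUnit G g)))
    rw [TensorProduct.smul_tmul', smul_eq_mul, mul_one]
  exact congrArg (fun g => Multiplicative.ofAdd (g x.toAdd)) h

theorem isLocalization : IsLocalizationFunctor L.{u} η := by
  intro G
  refine ⟨map_unit G, ?_⟩
  rw [ConcreteCategory.isIso_iff_bijective]
  exact unit_bij G

/-! ### It is not an epireflection -/

theorem not_epireflection : ¬ IsEpireflection L.{u} η := by
  intro h
  let Z : GrpCat.{u} := GrpCat.of (ULift.{u} (Multiplicative ℤ))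
  let e : Additive (Abelianization (ULift.{u} (Multiplicative ℤ))) →+ ℤ :=
    (Abelianization.lift (MulEquiv.ulift.toMonoidHom :
      ULift.{u} (Multiplicative ℤ) →* Multiplicative ℤ)).toAdditive
  let r : ℚ →ₗ[ℤ] ℤ →ₗ[ℤ] ℚ := (LinearMap.lsmul ℤ ℚ).flip
  let s : RA (ULift.{u} (Multiplicative ℤ)) →ₗ[ℤ] ℚ := TensorProduct.lift (r.compl₂ e.toIntLinearMap)
  have hs : ∀ (q : ℚ) (x : ℤ), s (q ⊗ₜ Additive.ofMul (Abelianization.of
      (ULift.up (Multiplicative.ofAdd x)))) = x • q := by
    intro q x
    rfl
  obtain ⟨g, hg⟩ := h Z (Multiplicative.ofAdd ((1 / 2 : ℚ) ⊗ₜ Additive.ofMul (Abelianization.of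
      (ULift.up (Multiplicative.ofAdd (1 : ℤ))))))
  obtain ⟨n, rfl⟩ : ∃ n : ℤ, g = ULift.up (Multiplicative.ofAdd n) := ⟨g.down.toAdd, rfl⟩
  have h1 : ((1 : ℚ) ⊗ₜ Additive.ofMul (Abelianization.of
      (ULift.up (Multiplicative.ofAdd n))) : RA (ULift.{u} (Multiplicative ℤ))) =
      (1 / 2 : ℚ) ⊗ₜ Additive.ofMul (Abelianization.of
      (ULift.up (Multiplicative.ofAdd (1 : ℤ)))) := hg
  have h2 := congrArg s h1
  rw [hs, hs, one_smul, zsmul_eq_mul, mul_one] at h2
  have h3 : (2 * n : ℚ) = 1 := by rw [h2]; norm_num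
  have h4 : 2 * n = 1 := by exact_mod_cast h3
  omega

/-- There is a localization functor on the category of groups which is right exact and conditionally
flat but is not an epireflection. -/
theorem result : ∃ (L : GrpCat.{u} ⥤ GrpCat.{u}) (η : 𝟭 GrpCat.{u} ⟶ L),
    IsLocalizationFunctor L η ∧ RightExact L ∧ ConditionallyFlat L ∧ ¬ IsEpireflection L η :=
  ⟨L, η, isLocalization, rightExact, conditionallyFlat_of_rightExact rightExact,
    not_epireflection⟩

end Pool.Agent.Results.MP_52d248_al.RationalAbelianization
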